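import Mathlib
import Pool.Agent.Helper784WE.Basic
import Pool.Agent.Helper784WE.Spec

/-!
Subshifts over the Hilbert cube, hyperfinite relations. Exact statements of the parts.
-/

set_option autoImplicit false

open Finset MeasureTheory TopologicalSpace
open scoped Classical

namespace Pool.Agent.Helper784HF

/-- the Hilbert cube `[0,1]^ℕ` -/
abbrev HC : Type := ℕ → unitInterval

/-- the full shift space, with the product topology -/
abbrev Full (Γ : Type) : Type := Γ → HC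

/-- the shift `(γ x)(δ) = x(γ⁻¹ δ)` -/
def shift {Γ : Type} [Group Γ] (γ : Γ) (x : Full Γ) : Full Γ := fun δ => x (γ⁻¹ * δ)

/-- the space of all subshifts (closed, i.e. compact, invariant subsets) with the Vietoris
topology -/
def Sh (Γ : Type) [Group Γ] : Type :=
  {Y : Compacts (Full Γ) // ∀ γ : Γ, ∀ y ∈ Y, shift γ y ∈ Y}

instance (Γ : Type) [Group Γ] : TopologicalSpace (Sh Γ) :=
  inferInstanceAs (TopologicalSpace {Y : Compacts (Full Γ) // ∀ γ : Γ, ∀ y ∈ Y, shift γ y ∈ Y})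

/-- the points of a subshift -/
def Sh.pts {Γ : Type} [Group Γ] (Y : Sh Γ) : Set (Full Γ) := (Y.1 : Set (Full Γ))

/-- the relation is the union of an increasing sequence of Borel equivalence relations with finite
classes -/
def Hyperfinite {X : Type} [TopologicalSpace X] (E : X → X → Prop) : Prop :=
  ∃ F : ℕ → X → X → Prop, (∀ n, Equivalence (F n)) ∧
    (∀ n, @MeasurableSet (X × X) (borel (X × X)) {p | F n p.1 p.2}) ∧
    (∀ n x, {y | F n x y}.Finite) ∧ (∀ n x y, F n x y → F (n + 1) x y) ∧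
    ∀ x y, E x y ↔ ∃ n, F n x y

/-- the orbit equivalence relation of a subshift -/
def orb {Γ : Type} [Group Γ] (Y : Sh Γ) (x y : Y.pts) : Prop := ∃ γ : Γ, shift γ x.1 = y.1

/-- the shift action on the subshift is free -/
def IsFree {Γ : Type} [Group Γ] (Y : Sh Γ) : Prop :=
  ∀ γ : Γ, γ ≠ 1 → ∀ y ∈ Y.pts, shift γ y ≠ y

/-! ### Statements of the parts -/

/-- J1: a 3-colouring of the orbits of the right multiplication. -/
def S_col : Prop := ∀ (Γ : Type) [Group Γ] (γ : Γ), γ ≠ 1 →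
  ∃ c : Γ → unitInterval, ∀ δ, (1 / 2 : ℝ) ≤ |(c (δ * γ) : ℝ) - (c δ : ℝ)|

/-- J2: a nonempty free subshift. -/
def S_Z : Prop := ∀ (Γ : Type) [Group Γ] [Countable Γ],
  ∃ Z : Set (Full Γ), IsClosed Z ∧ Z.Nonempty ∧ (∀ γ : Γ, ∀ z ∈ Z, shift γ z ∈ Z) ∧
    ∀ z ∈ Z, ∀ γ : Γ, γ ≠ 1 → shift γ z ≠ z

/-- J3: free subshifts are dense. -/
def S_dense : Prop := ∀ (Γ : Type) [Group Γ] [Countable Γ], Dense {Y : Sh Γ | IsFree Y}

/-- J4: free subshifts are comeager. -/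
def S_res : Prop := ∀ (Γ : Type) [Group Γ] [Countable Γ], {Y : Sh Γ | IsFree Y} ∈ residual (Sh Γ)

/-- J5: the space of subshifts is compact and Hausdorff, nonempty subshifts form an open set. -/
def S_baire : Prop := ∀ (Γ : Type) [Group Γ], CompactSpace (Sh Γ) ∧ T2Space (Sh Γ) ∧
  BaireSpace (Sh Γ) ∧ IsOpen {Y : Sh Γ | Y.pts.Nonempty} ∧ {Y : Sh Γ | Y.pts.Nonempty}.Nonempty

/-- J6: co-area inequality for functions with small support. -/
def S_coarea : Prop := ∀ (V : Type) [Fintype V] (Gr : SimpleGraph V) (D : ℕ) (ε : ℝ), 0 < ε →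
  Helper784WE.IsExp Gr D ε → ∀ f : V → ℝ, (∀ v, 0 ≤ f v) →
  2 * (univ.filter (fun v => f v ≠ 0)).card ≤ Fintype.card V →
  ε * ∑ v, f v ≤ ∑ p ∈ univ.filter (fun p : V × V => Gr.Adj p.1 p.2), |f p.1 - f p.2|

/-- J7: continuous almost invariant families from hyperfiniteness. -/
def S_app : Prop := ∀ (Γ : Type) [Group Γ] [Countable Γ] (Y : Type) [TopologicalSpace Y]
  [CompactSpace Y] [T2Space Y] [SecondCountableTopology Y] [MeasurableSpace Y] [BorelSpace Y]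
  [MulAction Γ Y] [ContinuousConstSMul Γ Y],
  (∀ γ : Γ, γ ≠ 1 → ∀ y : Y, γ • y ≠ y) →
  Hyperfinite (fun x y : Y => ∃ γ : Γ, γ • x = y) →
  ∀ (μ : Measure Y) [IsProbabilityMeasure μ] (T : Finset Γ) (η : ℝ), 0 < η →
  ∃ (K : Finset Γ) (ξ : Γ → C(Y, ℝ)), (∀ γ y, 0 ≤ ξ γ y) ∧ (∀ γ, γ ∉ K → ξ γ = 0) ∧
    1 - η ≤ ∫ y, ∑ γ ∈ K, ξ γ y ∂μ ∧
    ∀ K' : Finset Γ, ∫ y, ∑ t ∈ T, ∑ γ ∈ K', |ξ (t * γ) y - ξ γ (t⁻¹ • y)| ∂μ ≤ η

/-- J8: limits of averages. -/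
def S_lim : Prop := ∀ (Y : Type) [TopologicalSpace Y] [CompactSpace Y] [T2Space Y]
  [SecondCountableTopology Y] [MeasurableSpace Y] [BorelSpace Y]
  (V : ℕ → Type) [∀ k, Fintype (V k)] [∀ k, Nonempty (V k)] (p : ∀ k, V k → Y),
  ∃ μ : Measure Y, IsProbabilityMeasure μ ∧
    ∀ (m : ℕ) (f : Fin m → C(Y, ℝ)) (ε : ℝ), 0 < ε → ∀ N : ℕ, ∃ k, N ≤ k ∧
      ∀ i, |(∑ u, f i (p k u)) / Fintype.card (V k) - ∫ y, f i y ∂μ| < ε

/-- J9: no free hyperfinite continuous action on a compact space. -/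
def S_dyn : Prop := ∀ (Γ : Type) [Group Γ] [Countable Γ], ¬ Helper784WE.Conc Γ →
  ∀ (Y : Type) [TopologicalSpace Y] [CompactSpace Y] [T2Space Y] [SecondCountableTopology Y]
  [Nonempty Y] [MulAction Γ Y] [ContinuousConstSMul Γ Y],
  (∀ γ : Γ, γ ≠ 1 → ∀ y : Y, γ • y ≠ y) →
  ¬ Hyperfinite (fun x y : Y => ∃ γ : Γ, γ • x = y)

/-- J10: generic subshifts. -/
def S_gen : Prop := ∀ (Γ : Type) [Group Γ] [Countable Γ], ¬ Helper784WE.Conc Γ →
  IsMeagre {Y : Sh Γ | Y.pts.Nonempty ∧ Hyperfinite (orb Y)} ∧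
    {Y : Sh Γ | Hyperfinite (orb Y)} ∉ residual (Sh Γ)

end Pool.Agent.Helper784HF
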