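import Mathlib
import Pool.Agent.Helper784WE.H1
import Pool.Agent.Helper784WE.E
import Pool.Agent.Helper784WE.F
import Pool.Agent.Helper784WE.G3
import Pool.Agent.Helper784WE.A2

/-!
A finitely generated infinite group containing expanders.
-/

set_option autoImplicit false

open Finset
open scoped Classical

namespace Pool.Agent.Helper784HF

theorem exists_ncg : ∃ (Γ : Type) (_ : Group Γ), Group.FG Γ ∧ Infinite Γ ∧ Countable Γ ∧
    ¬ Helper784WE.Conc Γ := by
  obtain ⟨q, P, -, -, D, ε, T, hε, hδ⟩ :=
    Helper784WE.exists_monster Helper784WE.specE Helper784WE.F.specF Helper784WE.G.specG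
  have hnc : ¬ Helper784WE.Conc (FreeGroup (Fin q) ⧸ Helper784WE.ncl P) := by
    intro hc
    obtain ⟨δ, hδ0, h⟩ := hc T D ε hε
    obtain ⟨V, hV1, hV2, Gr, g, h1, h2, h3⟩ := hδ (δ / 2) (by positivity)
    obtain ⟨x, hx⟩ := h V Gr h1 g h2
    have h4 := h3 x
    have h5 : (0 : ℝ) < Fintype.card V := by exact_mod_cast Fintype.card_pos
    have h6 : 0 < δ * (Fintype.card V : ℝ) := mul_pos hδ0 h5
    have h7 := hx.trans (le_trans (le_of_eq (by congr)) h4)
    linarith
  have hcount : Countable (FreeGroup (Fin q)) := by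
    have : Countable (Quot (@FreeGroup.Red.Step (Fin q))) := inferInstance
    exact this
  refine ⟨FreeGroup (Fin q) ⧸ Helper784WE.ncl P, inferInstance, ?_, ?_, ?_, hnc⟩
  · infer_instance
  · by_contra hf
    rw [not_infinite_iff_finite] at hf
    exact hnc Helper784WE.conc_finite
  · exact Function.Surjective.countable (QuotientGroup.mk_surjective
      (s := Helper784WE.ncl P))

end Pool.Agent.Helper784HF
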