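import Pool.Agent.Helper784HF.Defs

set_option autoImplicit false

open Finset MeasureTheory TopologicalSpace
open scoped Classical

namespace Pool.Agent.Helper784HF

/-- a position function: along right multiplication by `γ` it increases by `1` modulo the order -/
theorem J1_pos {Γ : Type} [Group Γ] (γ : Γ) :
    ∃ k : Γ → ℤ, ∀ δ, k (δ * γ) ≡ k δ + 1 [ZMOD (orderOf γ : ℤ)] := by
  have h : ∀ δ : Γ, ∃ k : ℤ,
      γ ^ k = (Quotient.out (QuotientGroup.mk δ : Γ ⧸ Subgroup.zpowers γ))⁻¹ * δ := by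
    intro δ
    have h1 : (QuotientGroup.mk (Quotient.out (QuotientGroup.mk δ : Γ ⧸ Subgroup.zpowers γ)) :
        Γ ⧸ Subgroup.zpowers γ) = QuotientGroup.mk δ := QuotientGroup.out_eq' _
    rw [QuotientGroup.eq] at h1
    exact Subgroup.mem_zpowers_iff.1 h1
  choose k hk using h
  refine ⟨k, fun δ => ?_⟩
  rw [← zpow_eq_zpow_iff_modEq]
  have hq : (QuotientGroup.mk (δ * γ) : Γ ⧸ Subgroup.zpowers γ) = QuotientGroup.mk δ := by
    rw [eq_comm, QuotientGroup.eq]
    simp
  rw [hk (δ * γ), zpow_add_one, hk δ, hq, mul_assoc]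

theorem pJ1 : S_col := by
  intro Γ _ γ hγ
  obtain ⟨k, hk⟩ := J1_pos γ
  set m : ℤ := (orderOf γ : ℤ) with hm
  have hm1 : m ≠ 1 := by
    intro h
    apply hγ
    rw [← orderOf_eq_one_iff]
    have h' : (orderOf γ : ℤ) = 1 := hm ▸ h
    exact_mod_cast h'
  have hm0 : 0 ≤ m := by rw [hm]; positivity
  have hhalf : (1 / 2 : ℝ) ∈ unitInterval := ⟨by norm_num, by norm_num⟩
  let q : Γ → ℤ := fun δ => k δ % m
  have hq : ∀ δ, q (δ * γ) = (q δ + 1) % m := by
    intro δ
    have := hk δ
    unfold Int.ModEq at this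
    show k (δ * γ) % m = (k δ % m + 1) % m
    rw [this, Int.emod_add_emod]
  refine ⟨fun δ => if q δ = m - 1 ∧ m ≠ 0 then ⟨1 / 2, hhalf⟩ else
    if Even (q δ) then 0 else 1, fun δ => ?_⟩
  by_cases hz : m = 0
  · have h1 : q (δ * γ) = q δ + 1 := by rw [hq, hz, Int.emod_zero]
    simp only [hz, ne_eq, not_true_eq_false, and_false, if_false, h1]
    by_cases he : Even (q δ)
    · have hne : ¬ Even (q δ + 1) := by rw [Int.even_add_one]; simpa using he
      rw [if_neg hne, if_pos he]
      norm_num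
    · have hne : Even (q δ + 1) := by rw [Int.even_add_one]; exact he
      rw [if_pos hne, if_neg he]
      norm_num
  · have hmpos : 2 ≤ m := by omega
    have hq0 : 0 ≤ q δ := Int.emod_nonneg _ hz
    have hqm : q δ < m := Int.emod_lt_of_pos _ (by omega)
    show (1 / 2 : ℝ) ≤ |((if q (δ * γ) = m - 1 ∧ m ≠ 0 then ⟨1 / 2, hhalf⟩ else
      if Even (q (δ * γ)) then 0 else 1 : unitInterval) : ℝ) -
      ((if q δ = m - 1 ∧ m ≠ 0 then ⟨1 / 2, hhalf⟩ else
      if Even (q δ) then 0 else 1 : unitInterval) : ℝ)|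
    by_cases hl : q δ = m - 1
    · have h1 : q (δ * γ) = 0 := by rw [hq, hl]; simp
      have n1 : ¬ (q (δ * γ) = m - 1 ∧ m ≠ 0) := by omega
      have n2 : (q δ = m - 1 ∧ m ≠ 0) := ⟨hl, hz⟩
      have n3 : Even (q (δ * γ)) := by rw [h1]; simp
      simp only [if_neg n1, if_pos n2, if_pos n3]
      norm_num
    · have h1 : q (δ * γ) = q δ + 1 := by
        rw [hq]
        exact Int.emod_eq_of_lt (by omega) (by omega)
      have n1 : ¬ (q δ = m - 1 ∧ m ≠ 0) := fun h => hl h.1
      by_cases hl2 : q (δ * γ) = m - 1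
      · have n2 : (q (δ * γ) = m - 1 ∧ m ≠ 0) := ⟨hl2, hz⟩
        simp only [if_neg n1, if_pos n2]
        split_ifs <;> norm_num
      · have n2 : ¬ (q (δ * γ) = m - 1 ∧ m ≠ 0) := fun h => hl2 h.1
        simp only [if_neg n1, if_neg n2]
        by_cases he : Even (q δ)
        · have hne : ¬ Even (q (δ * γ)) := by rw [h1, Int.even_add_one]; simpa using he
          simp only [if_neg hne, if_pos he]
          norm_num
        · have hne : Even (q (δ * γ)) := by rw [h1, Int.even_add_one]; exact he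
          simp only [if_pos hne, if_neg he]
          norm_num

end Pool.Agent.Helper784HF
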