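import Pool.Agent.Helper784HF.Defs
set_option autoImplicit false
open Finset MeasureTheory TopologicalSpace
open scoped Classical
namespace Pool.Agent.Helper784HF

theorem J10_shift_mul {Γ : Type} [Group Γ] (a b : Γ) (x : Full Γ) :
    shift (a * b) x = shift a (shift b x) := by
  funext δ
  simp only [shift, mul_inv_rev, mul_assoc]

theorem J10_shift_one {Γ : Type} [Group Γ] (x : Full Γ) : shift (1 : Γ) x = x := by
  funext δ
  simp only [shift, inv_one, one_mul]

theorem J10_continuous_shift {Γ : Type} [Group Γ] (γ : Γ) :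
    Continuous (shift γ : Full Γ → Full Γ) :=
  continuous_pi (fun δ => continuous_apply (γ⁻¹ * δ))

/-- the action of the group on a subshift -/
@[reducible] def J10_act {Γ : Type} [Group Γ] (Y : Sh Γ) : MulAction Γ Y.pts where
  smul γ y := ⟨shift γ y.1, Y.2 γ y.1 y.2⟩
  one_smul y := Subtype.ext (J10_shift_one y.1)
  mul_smul a b y := Subtype.ext (J10_shift_mul a b y.1)

theorem J10_not_hyp (h9 : S_dyn) {Γ : Type} [Group Γ] [Countable Γ]
    (hΓ : ¬ Helper784WE.Conc Γ) (Y : Sh Γ) (hY : Y.pts.Nonempty) (hf : IsFree Y) :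
    ¬ Hyperfinite (orb Y) := by
  intro hh
  let : MulAction Γ Y.pts := J10_act Y
  have hsm : ∀ (γ : Γ) (y : Y.pts), (γ • y).1 = shift γ y.1 := fun _ _ => rfl
  have h1 : CompactSpace Y.pts := isCompact_iff_compactSpace.1 Y.1.isCompact
  have h2 : Nonempty Y.pts := hY.to_subtype
  have h3 : ContinuousConstSMul Γ Y.pts := by
    constructor
    intro γ
    exact Continuous.subtype_mk ((J10_continuous_shift γ).comp continuous_subtype_val) _
  have h4 : SecondCountableTopology (Full Γ) := inferInstance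
  refine h9 Γ hΓ Y.pts ?_ ?_
  · intro γ hγ y he
    apply hf γ hγ y.1 y.2
    rw [← hsm, he]
  · have he : (fun x y : Y.pts => ∃ γ : Γ, γ • x = y) = orb Y := by
      funext x y
      apply propext
      constructor
      · rintro ⟨γ, h⟩
        exact ⟨γ, by rw [← hsm, h]⟩
      · rintro ⟨γ, h⟩
        exact ⟨γ, Subtype.ext h⟩
    rw [he]
    exact hh

theorem pJ10 (h5 : S_baire) (h4 : S_res) (h9 : S_dyn) : S_gen := by
  intro Γ _ _ hΓ
  obtain ⟨_, _, hb, ho, hn⟩ := h5 Γ
  have hres := h4 Γ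
  constructor
  · show {Y : Sh Γ | Y.pts.Nonempty ∧ Hyperfinite (orb Y)}ᶜ ∈ residual (Sh Γ)
    filter_upwards [hres] with Y hY
    rintro ⟨h1, h2⟩
    exact J10_not_hyp h9 hΓ Y h1 hY h2
  · intro hc
    have h1 := Filter.inter_mem hres hc
    have h2 : Dense ({Y : Sh Γ | IsFree Y} ∩ {Y : Sh Γ | Hyperfinite (orb Y)}) :=
      dense_of_mem_residual h1
    obtain ⟨Y, hY1, hY2, hY3⟩ := h2.inter_open_nonempty _ ho hn
    exact J10_not_hyp h9 hΓ Y hY1 hY2 hY3

end Pool.Agent.Helper784HF
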