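import Pool.Agent.Helper784HF.Defs
set_option autoImplicit false
open Finset MeasureTheory TopologicalSpace
open scoped Classical
namespace Pool.Agent.Helper784HF

/-- the condition defining the subshift -/
def J2_set {Γ : Type} [Group Γ] (e : Γ → ℕ) : Set (Full Γ) :=
  {z | ∀ γ : Γ, γ ≠ 1 → ∀ δ : Γ, (1 / 2 : ℝ) ≤ |(z (δ * γ) (e γ) : ℝ) - (z δ (e γ) : ℝ)|}

theorem J2_closed {Γ : Type} [Group Γ] (e : Γ → ℕ) : IsClosed (J2_set e) := by
  have hc : ∀ (δ : Γ) (n : ℕ), Continuous fun z : Full Γ => ((z δ n : unitInterval) : ℝ) :=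
    fun δ n => continuous_subtype_val.comp ((continuous_apply n).comp (continuous_apply δ))
  have h : J2_set e = ⋂ (γ : Γ), ⋂ (_ : γ ≠ 1), ⋂ (δ : Γ),
      {z : Full Γ | (1 / 2 : ℝ) ≤ |(z (δ * γ) (e γ) : ℝ) - (z δ (e γ) : ℝ)|} := by
    ext z
    simp only [J2_set, Set.mem_ofPred_eq, Set.mem_iInter]
  rw [h]
  refine isClosed_iInter fun γ => isClosed_iInter fun _ => isClosed_iInter fun δ => ?_
  exact isClosed_le continuous_const ((hc _ _).sub (hc _ _)).abs

theorem J2_nonempty (h : S_col) {Γ : Type} [Group Γ] (e : Γ → ℕ) (he : Function.Injective e) :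
    (J2_set e).Nonempty := by
  choose c hc using fun γ : {γ : Γ // γ ≠ 1} => h Γ γ.1 γ.2
  have hinj : Function.Injective (fun γ : {γ : Γ // γ ≠ 1} => e γ.1) :=
    fun a b hab => Subtype.ext (he hab)
  refine ⟨fun δ => Function.extend (fun γ : {γ : Γ // γ ≠ 1} => e γ.1) (fun γ => c γ δ)
    (fun _ => 0), ?_⟩
  intro γ hγ δ
  have h1 : ∀ δ' : Γ, Function.extend (fun γ : {γ : Γ // γ ≠ 1} => e γ.1) (fun γ => c γ δ')
      (fun _ => 0) (e γ) = c ⟨γ, hγ⟩ δ' := fun δ' =>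
    hinj.extend_apply (fun γ => c γ δ') (fun _ => 0) ⟨γ, hγ⟩
  beta_reduce
  rw [h1, h1]
  exact hc ⟨γ, hγ⟩ δ

theorem pJ2 (h : S_col) : S_Z := by
  intro Γ _ _
  obtain ⟨e, he⟩ := exists_injective_nat Γ
  refine ⟨J2_set e, J2_closed e, J2_nonempty h e he, ?_, ?_⟩
  · intro a z hz γ hγ δ
    have h1 := hz γ hγ (a⁻¹ * δ)
    simp only [shift]
    rw [mul_assoc] at h1
    exact h1
  · intro z hz γ hγ hs
    have h1 := hz γ⁻¹ (inv_ne_one.2 hγ) 1
    have h2 : z γ⁻¹ = z 1 := by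
      have := congrFun hs 1
      simp only [shift, mul_one] at this
      exact this
    rw [one_mul, h2, sub_self, abs_zero] at h1
    norm_num at h1

end Pool.Agent.Helper784HF
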