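import Pool.Agent.Helper784HF.Defs
set_option autoImplicit false
open Finset MeasureTheory TopologicalSpace
open scoped Classical
namespace Pool.Agent.Helper784HF

/-- join of two points: first `n` coordinates from the first one, the rest from the second -/
noncomputable def J3_join {Γ : Type} (n : ℕ) (p : Full Γ × Full Γ) : Full Γ :=
  fun δ k => if k < n then p.1 δ k else p.2 δ (k - n)

theorem J3_join_cont {Γ : Type} (n : ℕ) : Continuous (J3_join (Γ := Γ) n) := by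
  unfold J3_join
  refine continuous_pi fun δ => continuous_pi fun k => ?_
  by_cases hk : k < n
  · simp only [hk, if_true]
    fun_prop
  · simp only [hk, if_false]
    fun_prop

theorem J3_join_tendsto {Γ : Type} (p : Full Γ × Full Γ) :
    Filter.Tendsto (fun q : ℕ × (Full Γ × Full Γ) => J3_join q.1 q.2)
      (Filter.atTop ×ˢ nhds p) (nhds p.1) := by
  rw [tendsto_pi_nhds]
  intro δ
  rw [tendsto_pi_nhds]
  intro k
  have h1 : Filter.Tendsto (fun q : ℕ × (Full Γ × Full Γ) => q.2.1 δ k)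
      (Filter.atTop ×ˢ nhds p) (nhds (p.1 δ k)) := by
    have hc : Continuous (fun r : Full Γ × Full Γ => r.1 δ k) := by fun_prop
    exact (hc.tendsto p).comp Filter.tendsto_snd
  refine h1.congr' ?_
  have h2 : ∀ᶠ q : ℕ × (Full Γ × Full Γ) in Filter.atTop ×ˢ nhds p, k < q.1 :=
    Filter.tendsto_fst.eventually (Filter.eventually_gt_atTop k)
  filter_upwards [h2] with q hq
  simp only [J3_join, hq, if_true]

theorem J3_join_shift {Γ : Type} [Group Γ] (n : ℕ) (γ : Γ) (p : Full Γ × Full Γ) :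
    J3_join n (shift γ p.1, shift γ p.2) = shift γ (J3_join n p) := rfl

theorem J3_inducing (Γ : Type) [Group Γ] :
    @Topology.IsInducing (Sh Γ) (Set (Full Γ)) _ (TopologicalSpace.vietoris (Full Γ))
      (fun Y : Sh Γ => (Y.1 : Set (Full Γ))) := by
  let _ := TopologicalSpace.vietoris (Full Γ)
  exact (Compacts.isEmbedding_coe (α := Full Γ)).isInducing.comp
    (Topology.IsInducing.subtypeVal
      (t := {Y : Compacts (Full Γ) | ∀ γ : Γ, ∀ y ∈ Y, shift γ y ∈ Y}))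

/-- the approximating subshifts -/
noncomputable def J3_Yn {Γ : Type} [Group Γ] (Z : Set (Full Γ)) (hZ : IsClosed Z)
    (hinv : ∀ γ : Γ, ∀ z ∈ Z, shift γ z ∈ Z) (Y : Sh Γ) (n : ℕ) : Sh Γ :=
  ⟨⟨J3_join n '' ((Y.1 : Set (Full Γ)) ×ˢ Z),
    (Y.1.isCompact.prod hZ.isCompact).image (J3_join_cont n)⟩, by
    rintro γ y ⟨p, ⟨hp1, hp2⟩, rfl⟩
    exact ⟨(shift γ p.1, shift γ p.2), ⟨Y.2 γ _ hp1, hinv γ _ hp2⟩, J3_join_shift n γ p⟩⟩

theorem J3_Yn_coe {Γ : Type} [Group Γ] (Z : Set (Full Γ)) (hZ : IsClosed Z)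
    (hinv : ∀ γ : Γ, ∀ z ∈ Z, shift γ z ∈ Z) (Y : Sh Γ) (n : ℕ) :
    ((J3_Yn Z hZ hinv Y n).1 : Set (Full Γ)) = J3_join n '' ((Y.1 : Set (Full Γ)) ×ˢ Z) := rfl

theorem J3_Yn_free {Γ : Type} [Group Γ] (Z : Set (Full Γ)) (hZ : IsClosed Z)
    (hinv : ∀ γ : Γ, ∀ z ∈ Z, shift γ z ∈ Z)
    (hfree : ∀ z ∈ Z, ∀ γ : Γ, γ ≠ 1 → shift γ z ≠ z) (Y : Sh Γ) (n : ℕ) :
    IsFree (J3_Yn Z hZ hinv Y n) := by
  rintro γ hγ y ⟨p, ⟨hp1, hp2⟩, rfl⟩ he
  refine hfree p.2 hp2 γ hγ ?_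
  funext δ k
  have h1 := congrFun (congrFun he δ) (k + n)
  simp only [shift, J3_join] at h1
  have h2 : ¬ (k + n < n) := by omega
  simp only [h2, if_false, Nat.add_sub_cancel] at h1
  exact h1

theorem J3_Yn_tendsto {Γ : Type} [Group Γ] (Z : Set (Full Γ)) (hZ : IsClosed Z)
    (hne : Z.Nonempty) (hinv : ∀ γ : Γ, ∀ z ∈ Z, shift γ z ∈ Z) (Y : Sh Γ) :
    Filter.Tendsto (fun n => J3_Yn Z hZ hinv Y n) Filter.atTop (nhds Y) := by
  let _ := TopologicalSpace.vietoris (Full Γ)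
  rw [(J3_inducing Γ).tendsto_nhds_iff]
  rw [TopologicalSpace.tendsto_nhds_generateFrom_iff]
  rintro s (⟨U, hU, rfl⟩ | ⟨V, hV, rfl⟩) hs
  · have hs' : (Y.1 : Set (Full Γ)) ⊆ U := hs
    have hK : IsCompact ((Y.1 : Set (Full Γ)) ×ˢ Z) := Y.1.isCompact.prod hZ.isCompact
    have h1 := hK.mem_prod_nhdsSet_of_forall (l := (Filter.atTop : Filter ℕ))
      (s := {q : ℕ × (Full Γ × Full Γ) | J3_join q.1 q.2 ∈ U}) (by
        intro p hp
        exact (J3_join_tendsto p).eventually (IsOpen.mem_nhds (show IsOpen U from hU) (hs' hp.1)))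
    rw [Filter.mem_prod_iff] at h1
    obtain ⟨t1, ht1, t2, ht2, ht⟩ := h1
    have h3 : (Y.1 : Set (Full Γ)) ×ˢ Z ⊆ t2 := subset_of_mem_nhdsSet ht2
    filter_upwards [ht1] with n hn
    rintro w ⟨p, hp, rfl⟩
    exact ht (Set.mk_mem_prod hn (h3 hp))
  · obtain ⟨y, hy, hyV⟩ : ((Y.1 : Set (Full Γ)) ∩ V).Nonempty := hs
    obtain ⟨z, hz⟩ := hne
    have h1 : Filter.Tendsto (fun n : ℕ => J3_join n (y, z)) Filter.atTop (nhds y) := by
      have h2 : Filter.Tendsto (fun n : ℕ => (n, (y, z))) Filter.atTop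
          (Filter.atTop ×ˢ nhds ((y, z) : Full Γ × Full Γ)) :=
        Filter.Tendsto.prodMk Filter.tendsto_id tendsto_const_nhds
      exact (J3_join_tendsto (y, z)).comp h2
    filter_upwards [h1.eventually (IsOpen.mem_nhds (show IsOpen V from hV) hyV)] with n hn
    exact ⟨J3_join n (y, z), ⟨(y, z), ⟨hy, hz⟩, rfl⟩, hn⟩

theorem pJ3 (h : S_Z) : S_dense := by
  intro Γ _ _
  obtain ⟨Z, hZ, hne, hinv, hfree⟩ := h Γ
  intro Y
  exact mem_closure_of_tendsto (J3_Yn_tendsto Z hZ hne hinv Y)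
    (Filter.Eventually.of_forall fun n => J3_Yn_free Z hZ hinv hfree Y n)

end Pool.Agent.Helper784HF
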