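import Pool.Agent.Helper784HF.Defs

set_option autoImplicit false

open Finset MeasureTheory TopologicalSpace
open scoped Classical

namespace Pool.Agent.Helper784HF

theorem J4_shift_continuous {Γ : Type} [Group Γ] (γ : Γ) :
    Continuous (shift γ : Full Γ → Full Γ) :=
  continuous_pi fun δ => continuous_apply (γ⁻¹ * δ)

theorem J4_open_moved {Γ : Type} [Group Γ] (γ : Γ) :
    IsOpen {y : Full Γ | shift γ y ≠ y} :=
  isOpen_ne_fun (J4_shift_continuous γ) continuous_id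

theorem J4_open {Γ : Type} [Group Γ] (γ : Γ) :
    IsOpen {Y : Sh Γ | ∀ y ∈ Y.pts, shift γ y ≠ y} := by
  have h1 : IsOpen {K : Compacts (Full Γ) | (K : Set (Full Γ)) ⊆ {y | shift γ y ≠ y}} :=
    Compacts.isOpen_subsets_of_isOpen (J4_open_moved γ)
  exact h1.preimage continuous_subtype_val

theorem pJ4 (h : S_dense) : S_res := by
  intro Γ _ _
  have e : {Y : Sh Γ | IsFree Y} =
      ⋂ γ : {γ : Γ // γ ≠ 1}, {Y : Sh Γ | ∀ y ∈ Y.pts, shift γ.1 y ≠ y} := by
    ext Y
    simp only [Set.mem_ofPred_eq, Set.mem_iInter, IsFree]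
    exact ⟨fun hY γ => hY γ.1 γ.2, fun hY γ hγ => hY ⟨γ, hγ⟩⟩
  rw [e]
  refine countable_iInter_mem.mpr fun γ => ?_
  refine residual_of_dense_open (J4_open γ.1) ((h Γ).mono ?_)
  intro Y hY
  exact hY γ.1 γ.2

end Pool.Agent.Helper784HF
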