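import Pool.Agent.Helper784HF.Defs
set_option autoImplicit false
open Finset MeasureTheory TopologicalSpace
open scoped Classical
namespace Pool.Agent.Helper784HF

theorem J5_shift_mul {Γ : Type} [Group Γ] (a b : Γ) (x : Full Γ) :
    shift (a * b) x = shift a (shift b x) := by
  funext δ
  simp only [shift, mul_inv_rev, mul_assoc]

theorem J5_shift_one {Γ : Type} [Group Γ] (x : Full Γ) : shift (1 : Γ) x = x := by
  funext δ
  simp only [shift, inv_one, one_mul]

theorem J5_continuous_shift {Γ : Type} [Group Γ] (γ : Γ) :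
    Continuous (shift γ : Full Γ → Full Γ) :=
  continuous_pi (fun δ => continuous_apply (γ⁻¹ * δ))

theorem J5_setOf_eq {Γ : Type} [Group Γ] :
    {Y : Compacts (Full Γ) | ∀ γ : Γ, ∀ y ∈ Y, shift γ y ∈ Y} =
      ⋂ γ : Γ, {Y : Compacts (Full Γ) | Compacts.map (shift γ) (J5_continuous_shift γ) Y = Y} := by
  ext Y
  rw [Set.mem_iInter]
  constructor
  · intro h γ
    show Compacts.map (shift γ) (J5_continuous_shift γ) Y = Y
    apply Compacts.ext
    rw [Compacts.coe_map]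
    apply Set.Subset.antisymm
    · rintro _ ⟨y, hy, rfl⟩
      exact h γ y hy
    · intro y hy
      refine ⟨shift γ⁻¹ y, h γ⁻¹ y hy, ?_⟩
      rw [← J5_shift_mul, mul_inv_cancel, J5_shift_one]
  · intro h γ y hy
    have h1 : Compacts.map (shift γ) (J5_continuous_shift γ) Y = Y := h γ
    have h2 : shift γ y ∈ (Compacts.map (shift γ) (J5_continuous_shift γ) Y : Set (Full Γ)) := by
      rw [Compacts.coe_map]
      exact ⟨y, hy, rfl⟩
    rw [h1] at h2
    exact h2

theorem J5_isClosed {Γ : Type} [Group Γ] :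
    IsClosed {Y : Compacts (Full Γ) | ∀ γ : Γ, ∀ y ∈ Y, shift γ y ∈ Y} := by
  rw [J5_setOf_eq]
  exact isClosed_iInter (fun γ =>
    isClosed_eq (J5_continuous_shift γ).compacts_map continuous_id)

theorem J5_compact (Γ : Type) [Group Γ] : CompactSpace (Sh Γ) :=
  isCompact_iff_compactSpace.1 (J5_isClosed (Γ := Γ)).isCompact

theorem J5_t2 (Γ : Type) [Group Γ] : T2Space (Sh Γ) :=
  inferInstanceAs (T2Space {Y : Compacts (Full Γ) // ∀ γ : Γ, ∀ y ∈ Y, shift γ y ∈ Y})

theorem J5_open (Γ : Type) [Group Γ] : IsOpen {Y : Sh Γ | Y.pts.Nonempty} := by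
  have h1 : IsOpen {K : Compacts (Full Γ) | ((K : Set (Full Γ)) ∩ Set.univ).Nonempty} :=
    Compacts.isOpen_inter_nonempty_of_isOpen isOpen_univ
  have h2 : {Y : Sh Γ | Y.pts.Nonempty} =
      (Subtype.val : {Y : Compacts (Full Γ) // ∀ γ : Γ, ∀ y ∈ Y, shift γ y ∈ Y} →
        Compacts (Full Γ)) ⁻¹'
        {K : Compacts (Full Γ) | ((K : Set (Full Γ)) ∩ Set.univ).Nonempty} := by
    ext Y
    constructor
    · rintro ⟨y, hy⟩
      exact ⟨y, hy, Set.mem_univ y⟩
    · rintro ⟨y, hy, _⟩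
      exact ⟨y, hy⟩
  rw [h2]
  exact h1.preimage continuous_subtype_val

theorem pJ5 : S_baire := by
  intro Γ _
  have h1 : CompactSpace (Sh Γ) := J5_compact Γ
  have h2 : T2Space (Sh Γ) := J5_t2 Γ
  refine ⟨h1, h2, inferInstance, J5_open Γ, ?_⟩
  refine ⟨⟨⟨Set.univ, isCompact_univ⟩, fun γ y _ => Set.mem_univ _⟩, ?_⟩
  exact ⟨fun _ => fun _ => 0, Set.mem_univ _⟩

end Pool.Agent.Helper784HF
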