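import Pool.Agent.Helper784HF.Defs
set_option autoImplicit false
open Finset MeasureTheory TopologicalSpace
open scoped Classical
namespace Pool.Agent.Helper784HF

theorem J6_bd {V : Type} [Fintype V] (Gr : SimpleGraph V) (A : Finset V) (m : ℝ) :
    m * (Helper784WE.bd Gr A : ℝ) =
      ∑ p ∈ univ.filter (fun p : V × V => Gr.Adj p.1 p.2),
        (if p.1 ∈ A ∧ p.2 ∉ A then m else 0) := by
  rw [← Finset.sum_filter, Finset.sum_const, nsmul_eq_mul, mul_comm, Finset.filter_filter]
  congr 2
  unfold Helper784WE.bd
  congr 1
  ext p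
  simp only [mem_filter, mem_univ, true_and]
  tauto

theorem J6_aux {V : Type} [Fintype V] (Gr : SimpleGraph V) (ε : ℝ)
    (hch : ∀ A : Finset V, 2 * A.card ≤ Fintype.card V → ε * A.card ≤ (Helper784WE.bd Gr A : ℝ)) :
    ∀ n : ℕ, ∀ f : V → ℝ, (∀ v, 0 ≤ f v) → (univ.filter (fun v => f v ≠ 0)).card = n →
    2 * n ≤ Fintype.card V →
    ε * ∑ v, f v ≤
      ∑ p ∈ univ.filter (fun p : V × V => Gr.Adj p.1 p.2), max (f p.1 - f p.2) 0 := by
  intro n
  induction n using Nat.strong_induction_on with
  | _ n ih =>
    intro f hf hn h2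
    by_cases hA : (univ.filter (fun v => f v ≠ 0)).Nonempty
    · set A : Finset V := univ.filter (fun v => f v ≠ 0) with hAdef
      obtain ⟨w, hwA, hw⟩ := Finset.exists_min_image A f hA
      have hmem : ∀ v, v ∈ A ↔ f v ≠ 0 := by
        intro v
        rw [hAdef, mem_filter]
        simp
      set f' : V → ℝ := fun v => if v ∈ A then f v - f w else 0 with hf'
      have hf'A : ∀ v, v ∈ A → f' v = f v - f w := fun v hv => by
        simp only [hf', if_pos hv]
      have hf'N : ∀ v, v ∉ A → f' v = 0 := fun v hv => by
        simp only [hf', if_neg hv]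
      have hfN : ∀ v, v ∉ A → f v = 0 := fun v hv => by
        by_contra h
        exact hv ((hmem v).2 h)
      have h0 : ∀ v, 0 ≤ f' v := by
        intro v
        by_cases hv : v ∈ A
        · rw [hf'A v hv]
          have := hw v hv
          linarith
        · rw [hf'N v hv]
      have hsub : univ.filter (fun v => f' v ≠ 0) ⊂ A := by
        refine (Finset.ssubset_iff_of_subset ?_).2 ⟨w, hwA, ?_⟩
        · intro v hv
          rw [mem_filter] at hv
          by_contra h
          exact hv.2 (hf'N v h)
        · rw [mem_filter]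
          intro h
          apply h.2
          rw [hf'A w hwA, sub_self]
      have hlt := Finset.card_lt_card hsub
      rw [hn] at hlt
      have hIH := ih _ hlt f' h0 rfl (by omega)
      have hsum : ∑ v, f v = ∑ v, f' v + f w * A.card := by
        have h3 : f w * (A.card : ℝ) = ∑ v, (if v ∈ A then f w else 0) := by
          rw [← Finset.sum_filter, Finset.sum_const, nsmul_eq_mul, mul_comm]
          congr 3
          ext v
          simp
        rw [h3, ← Finset.sum_add_distrib]
        refine Finset.sum_congr rfl ?_
        intro v _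
        by_cases hv : v ∈ A
        · rw [hf'A v hv, if_pos hv]; ring
        · rw [hf'N v hv, if_neg hv, hfN v hv]; ring
      have hpt : ∑ p ∈ univ.filter (fun p : V × V => Gr.Adj p.1 p.2), max (f p.1 - f p.2) 0 =
          ∑ p ∈ univ.filter (fun p : V × V => Gr.Adj p.1 p.2), max (f' p.1 - f' p.2) 0 +
          f w * (Helper784WE.bd Gr A : ℝ) := by
        rw [J6_bd, ← Finset.sum_add_distrib]
        refine Finset.sum_congr rfl ?_
        rintro ⟨u, v⟩ _
        simp only
        by_cases hu : u ∈ A
        · by_cases hv : v ∈ A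
          · rw [hf'A u hu, hf'A v hv, if_neg (fun h => h.2 hv), add_zero]
            congr 1
            ring
          · rw [hf'A u hu, hf'N v hv, hfN v hv, if_pos ⟨hu, hv⟩, sub_zero, sub_zero,
              max_eq_left (hf u), max_eq_left (by have := hw u hu; linarith)]
            ring
        · rw [hf'N u hu, hfN u hu, if_neg (fun h => hu h.1), add_zero,
            max_eq_right (by have := hf v; linarith), max_eq_right (by have := h0 v; linarith)]
      have hc := hch A (by rw [hn]; exact h2)
      rw [hsum, hpt, mul_add]
      have hfw : 0 ≤ f w := hf w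
      have h5 : ε * (f w * (A.card : ℝ)) ≤ f w * (Helper784WE.bd Gr A : ℝ) := by
        calc ε * (f w * (A.card : ℝ)) = f w * (ε * A.card) := by ring
          _ ≤ _ := mul_le_mul_of_nonneg_left hc hfw
      linarith
    · have hz : ∀ v, f v = 0 := by
        intro v
        by_contra h
        exact hA ⟨v, by rw [mem_filter]; exact ⟨mem_univ _, h⟩⟩
      have h1 : ∑ v, f v = 0 := Finset.sum_eq_zero (fun v _ => hz v)
      rw [h1, mul_zero]
      exact Finset.sum_nonneg (fun p _ => le_max_right _ _)

theorem pJ6 : S_coarea := by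
  intro V _ Gr D ε hε hE f hf h2
  refine (J6_aux Gr ε hE.cheeger _ f hf rfl h2).trans ?_
  refine Finset.sum_le_sum ?_
  intro p _
  exact max_le (le_abs_self _) (abs_nonneg _)

end Pool.Agent.Helper784HF
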