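import Pool.Agent.Helper784HF.Defs
set_option autoImplicit false
open Finset MeasureTheory TopologicalSpace
open scoped Classical
namespace Pool.Agent.Helper784HF

theorem J7_approx {Y : Type} [TopologicalSpace Y] [CompactSpace Y] [T2Space Y]
    [SecondCountableTopology Y] [MeasurableSpace Y] [BorelSpace Y] (ν : Measure Y)
    [IsFiniteMeasure ν] (f : Y → ℝ) (hf : Measurable f) (h0 : ∀ y, 0 ≤ f y) (h1 : ∀ y, f y ≤ 1)
    (δ : ENNReal) (hδ : δ ≠ 0) :
    ∃ g : C(Y, ℝ), (∀ y, 0 ≤ g y) ∧ ∫⁻ y, ‖g y - f y‖ₑ ∂ν ≤ δ := by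
  have hint : Integrable f ν := Integrable.of_bound hf.aestronglyMeasurable 1
    (Filter.Eventually.of_forall fun y => by rw [Real.norm_of_nonneg (h0 y)]; exact h1 y)
  obtain ⟨g, _, hg, hc, _⟩ := hint.exists_hasCompactSupport_lintegral_sub_le hδ
  refine ⟨⟨fun y => max (g y) 0, hc.max continuous_const⟩, fun y => le_max_right _ _, ?_⟩
  refine le_trans (lintegral_mono fun y => ?_) hg
  rw [Real.enorm_eq_ofReal_abs, Real.enorm_eq_ofReal_abs]
  refine ENNReal.ofReal_le_ofReal ?_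
  change |max (g y) 0 - f y| ≤ |f y - g y|
  have h := h0 y
  rcases le_total (g y) 0 with hg0 | hg0
  · rw [max_eq_right hg0, zero_sub, abs_neg, abs_of_nonneg h]
    calc f y ≤ f y - g y := by linarith
      _ ≤ |f y - g y| := le_abs_self _
  · rw [max_eq_left hg0, abs_sub_comm]

noncomputable def J7_a {Γ Y : Type} [Group Γ] [MulAction Γ Y] (F : Y → Y → Prop) (γ : Γ)
    (y : Y) : ENNReal := if F (γ⁻¹ • y) y then 1 else 0

noncomputable def J7_N (Γ : Type) {Y : Type} [Group Γ] [MulAction Γ Y] (F : Y → Y → Prop)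
    (y : Y) : ENNReal := ∑' γ : Γ, J7_a F γ y

noncomputable def J7_L {Γ Y : Type} [Group Γ] [MulAction Γ Y] (F : Y → Y → Prop) (γ : Γ)
    (y : Y) : ENNReal := J7_a F γ y * (J7_N Γ F y)⁻¹

section
variable {Γ Y : Type} [Group Γ] [MulAction Γ Y] {F : Y → Y → Prop}

theorem J7_N_ne_zero (hF : Equivalence F) (y : Y) : J7_N Γ F y ≠ 0 := by
  intro h
  have h1 : J7_a F (1 : Γ) y ≤ J7_N Γ F y := ENNReal.le_tsum (1 : Γ)
  rw [h] at h1
  simp [J7_a, hF.refl y] at h1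

theorem J7_N_ne_top (hfree : ∀ γ : Γ, γ ≠ 1 → ∀ y : Y, γ • y ≠ y) (hF : Equivalence F)
    (hfin : ∀ x, {y | F x y}.Finite) (y : Y) : J7_N Γ F y ≠ ⊤ := by
  have hinj : Function.Injective (fun γ : Γ => γ⁻¹ • y) := by
    intro γ γ' h
    by_contra hne
    have h2 : (γ' * γ⁻¹) • y = y := by
      rw [mul_smul]
      rw [show γ⁻¹ • y = γ'⁻¹ • y from h, smul_inv_smul]
    refine hfree (γ' * γ⁻¹) ?_ y h2
    intro h3
    exact hne (mul_inv_eq_one.mp h3).symm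
  have hA : {γ : Γ | F (γ⁻¹ • y) y}.Finite := by
    have : {γ : Γ | F (γ⁻¹ • y) y} = (fun γ : Γ => γ⁻¹ • y) ⁻¹' {x | F y x} := by
      ext γ
      exact ⟨fun h => hF.symm h, fun h => hF.symm h⟩
    rw [this]
    exact (hfin y).preimage hinj.injOn
  have h1 : J7_N Γ F y = ∑ γ ∈ hA.toFinset, J7_a F γ y := by
    refine tsum_eq_sum fun γ hγ => ?_
    have : ¬ F (γ⁻¹ • y) y := by simpa using hγ
    simp [J7_a, this]
  rw [h1]
  refine (ENNReal.sum_lt_top.mpr fun γ _ => ?_).ne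
  unfold J7_a
  split_ifs
  · exact ENNReal.one_lt_top
  · exact ENNReal.zero_lt_top

theorem J7_sum (hfree : ∀ γ : Γ, γ ≠ 1 → ∀ y : Y, γ • y ≠ y) (hF : Equivalence F)
    (hfin : ∀ x, {y | F x y}.Finite) (y : Y) : ∑' γ : Γ, J7_L F γ y = 1 := by
  unfold J7_L
  rw [ENNReal.tsum_mul_right]
  exact ENNReal.mul_inv_cancel (J7_N_ne_zero hF y) (J7_N_ne_top hfree hF hfin y)

theorem J7_a_shift (hF : Equivalence F) (t : Γ) (y : Y) (h : F (t⁻¹ • y) y) (γ : Γ) :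
    J7_a F (t * γ) y = J7_a F γ (t⁻¹ • y) := by
  unfold J7_a
  have : F ((t * γ)⁻¹ • y) y ↔ F (γ⁻¹ • (t⁻¹ • y)) (t⁻¹ • y) := by
    rw [mul_inv_rev, mul_smul]
    exact ⟨fun h2 => hF.trans h2 (hF.symm h), fun h2 => hF.trans h2 h⟩
  simp only [this]

theorem J7_N_shift (hF : Equivalence F) (t : Γ) (y : Y) (h : F (t⁻¹ • y) y) :
    J7_N Γ F y = J7_N Γ F (t⁻¹ • y) := by
  unfold J7_N
  rw [← (Equiv.mulLeft t).tsum_eq]
  exact tsum_congr fun γ => J7_a_shift hF t y h γ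

theorem J7_L_shift (hF : Equivalence F) (t : Γ) (y : Y) (h : F (t⁻¹ • y) y) (γ : Γ) :
    J7_L F (t * γ) y = J7_L F γ (t⁻¹ • y) := by
  unfold J7_L
  rw [J7_a_shift hF t y h γ, J7_N_shift hF t y h]

theorem J7_B_meas [TopologicalSpace Y] [SecondCountableTopology Y] [MeasurableSpace Y]
    [BorelSpace Y] [ContinuousConstSMul Γ Y]
    (hm : @MeasurableSet (Y × Y) (borel (Y × Y)) {p | F p.1 p.2}) (γ : Γ) :
    MeasurableSet {y : Y | F (γ⁻¹ • y) y} := by
  rw [← (inferInstance : BorelSpace (Y × Y)).measurable_eq] at hm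
  have h : Measurable (fun y : Y => (γ⁻¹ • y, y)) :=
    ((continuous_const_smul γ⁻¹).measurable).prodMk measurable_id
  exact h hm

theorem J7_L_meas [Countable Γ] [TopologicalSpace Y] [SecondCountableTopology Y]
    [MeasurableSpace Y] [BorelSpace Y] [ContinuousConstSMul Γ Y]
    (hm : @MeasurableSet (Y × Y) (borel (Y × Y)) {p | F p.1 p.2}) (γ : Γ) :
    Measurable (J7_L F γ : Y → ENNReal) := by
  have ha : ∀ γ : Γ, Measurable (J7_a F γ : Y → ENNReal) := fun γ =>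
    Measurable.ite (J7_B_meas hm γ) measurable_const measurable_const
  have hN : Measurable (J7_N Γ F : Y → ENNReal) := Measurable.tsum ha
  exact (ha γ).mul hN.inv

theorem J7_L_le (hfree : ∀ γ : Γ, γ ≠ 1 → ∀ y : Y, γ • y ≠ y) (hF : Equivalence F)
    (hfin : ∀ x, {y | F x y}.Finite) (γ : Γ) (y : Y) : J7_L F γ y ≤ 1 := by
  rw [← J7_sum hfree hF hfin y]
  exact ENNReal.le_tsum γ

end

/-- the difference of the families, with the shifts -/
theorem J7_mid {Γ Y : Type} [Group Γ] [MulAction Γ Y] {F : Y → Y → Prop}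
    (hfree : ∀ γ : Γ, γ ≠ 1 → ∀ y : Y, γ • y ≠ y) (hF : Equivalence F)
    (hfin : ∀ x, {y | F x y}.Finite) (t : Γ) (y : Y) (K : Finset Γ) :
    ∑ γ ∈ K, ‖(J7_L F (t * γ) y).toReal - (J7_L F γ (t⁻¹ • y)).toReal‖ₑ ≤
      Set.indicator {y : Y | ¬ F (t⁻¹ • y) y} (fun _ => (2 : ENNReal)) y := by
  by_cases h : F (t⁻¹ • y) y
  · have h0 : ∀ γ ∈ K, ‖(J7_L F (t * γ) y).toReal - (J7_L F γ (t⁻¹ • y)).toReal‖ₑ = 0 := by
      intro γ _
      rw [J7_L_shift hF t y h γ, sub_self, enorm_zero]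
    rw [Finset.sum_eq_zero h0]
    exact zero_le
  · rw [Set.indicator_of_mem (show y ∈ {y : Y | ¬ F (t⁻¹ • y) y} from h)]
    have h1 : ∀ γ ∈ K, ‖(J7_L F (t * γ) y).toReal - (J7_L F γ (t⁻¹ • y)).toReal‖ₑ ≤
        J7_L F (t * γ) y + J7_L F γ (t⁻¹ • y) := by
      intro γ _
      refine (enorm_sub_le).trans ?_
      have e1 : ‖(J7_L F (t * γ) y).toReal‖ₑ = J7_L F (t * γ) y := by
        rw [Real.enorm_of_nonneg ENNReal.toReal_nonneg, ENNReal.ofReal_toReal]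
        exact ((J7_L_le hfree hF hfin (t * γ) y).trans_lt ENNReal.one_lt_top).ne
      have e2 : ‖(J7_L F γ (t⁻¹ • y)).toReal‖ₑ = J7_L F γ (t⁻¹ • y) := by
        rw [Real.enorm_of_nonneg ENNReal.toReal_nonneg, ENNReal.ofReal_toReal]
        exact ((J7_L_le hfree hF hfin γ (t⁻¹ • y)).trans_lt ENNReal.one_lt_top).ne
      rw [e1, e2]
    refine (Finset.sum_le_sum h1).trans ?_
    rw [Finset.sum_add_distrib]
    have e1 : ∑ γ ∈ K, J7_L F (t * γ) y ≤ 1 := by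
      rw [← J7_sum hfree hF hfin y, ← (Equiv.mulLeft t).tsum_eq]
      exact ENNReal.sum_le_tsum K
    have e2 : ∑ γ ∈ K, J7_L F γ (t⁻¹ • y) ≤ 1 := by
      rw [← J7_sum hfree hF hfin (t⁻¹ • y)]
      exact ENNReal.sum_le_tsum K
    calc _ ≤ (1 : ENNReal) + 1 := add_le_add e1 e2
      _ = 2 := by norm_num

/-- the total difference is small -/
theorem J7_tot {Γ Y : Type} [Countable Γ] [TopologicalSpace Y] [CompactSpace Y] [T2Space Y]
    [SecondCountableTopology Y] [MeasurableSpace Y] [BorelSpace Y] (ν : Measure Y)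
    [IsFiniteMeasure ν] (L : Γ → Y → ENNReal) (hL : ∀ γ, Measurable (L γ))
    (hs : ∀ y, ∑' γ, L γ y = 1) (δ : ENNReal) (hδ : δ ≠ 0) :
    ∃ (K : Finset Γ) (ξ : Γ → C(Y, ℝ)), (∀ γ y, 0 ≤ ξ γ y) ∧ (∀ γ, γ ∉ K → ξ γ = 0) ∧
      ∑' γ, ∫⁻ y, ‖ξ γ y - (L γ y).toReal‖ₑ ∂ν ≤ δ + δ := by
  have hle : ∀ γ y, L γ y ≤ 1 := fun γ y => by
    rw [← hs y]
    exact ENNReal.le_tsum γ
  have hsum : ∑' γ, ∫⁻ y, L γ y ∂ν ≠ ⊤ := by
    rw [← lintegral_tsum (fun γ => (hL γ).aemeasurable)]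
    simp only [hs, lintegral_const, one_mul]
    exact measure_ne_top ν _
  have h0 := ENNReal.tendsto_tsum_compl_atTop_zero hsum
  obtain ⟨K, hK⟩ := (h0.eventually (ge_mem_nhds (pos_iff_ne_zero.mpr hδ))).exists
  have hc : δ / ((K.card : ENNReal) + 1) ≠ 0 := by
    refine (ENNReal.div_pos hδ ?_).ne'
    exact ENNReal.add_ne_top.mpr ⟨ENNReal.natCast_ne_top _, ENNReal.one_ne_top⟩
  have hg : ∀ γ, ∃ g : C(Y, ℝ), (∀ y, 0 ≤ g y) ∧
      ∫⁻ y, ‖g y - (L γ y).toReal‖ₑ ∂ν ≤ δ / ((K.card : ENNReal) + 1) := by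
    intro γ
    refine J7_approx ν (fun y => (L γ y).toReal) (hL γ).ennreal_toReal
      (fun y => ENNReal.toReal_nonneg) (fun y => ?_) _ hc
    have := ENNReal.toReal_mono ENNReal.one_ne_top (hle γ y)
    simpa using this
  choose g hg0 hg1 using hg
  refine ⟨K, fun γ => if γ ∈ K then g γ else 0, fun γ y => ?_, fun γ hγ => if_neg hγ, ?_⟩
  · by_cases h : γ ∈ K
    · simp only [h, if_true]
      exact hg0 γ y
    · simp [h]
  · have hD : ∀ γ, ∫⁻ y, ‖(if γ ∈ K then g γ else 0) y - (L γ y).toReal‖ₑ ∂ν ≤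
        (if γ ∈ K then δ / ((K.card : ENNReal) + 1) else 0) +
          Set.indicator {γ | γ ∉ K} (fun γ => ∫⁻ y, L γ y ∂ν) γ := by
      intro γ
      by_cases hγ : γ ∈ K
      · simp only [hγ, if_true]
        exact (hg1 γ).trans le_self_add
      · rw [Set.indicator_of_mem (show γ ∈ {γ | γ ∉ K} from hγ)]
        simp only [hγ, if_false, ContinuousMap.zero_apply, zero_sub, enorm_neg, zero_add]
        refine lintegral_mono fun y => ?_
        rw [Real.enorm_of_nonneg ENNReal.toReal_nonneg, ENNReal.ofReal_toReal]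
        exact ((hle γ y).trans_lt ENNReal.one_lt_top).ne
    refine (ENNReal.tsum_le_tsum hD).trans ?_
    rw [ENNReal.tsum_add]
    refine add_le_add ?_ ?_
    · have h1 : ∑' γ, (if γ ∈ K then δ / ((K.card : ENNReal) + 1) else 0) =
          ∑ γ ∈ K, δ / ((K.card : ENNReal) + 1) := by
        rw [tsum_eq_sum (s := K) (fun γ hγ => if_neg hγ)]
        exact Finset.sum_congr rfl fun γ hγ => if_pos hγ
      rw [h1, Finset.sum_const, nsmul_eq_mul]
      calc (K.card : ENNReal) * (δ / ((K.card : ENNReal) + 1))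
          ≤ ((K.card : ENNReal) + 1) * (δ / ((K.card : ENNReal) + 1)) := by
            gcongr
            exact le_self_add
        _ ≤ δ := ENNReal.mul_div_le
    · rw [← _root_.tsum_subtype]
      exact hK

/-- triangle inequality for the families -/
theorem J7_tri {Γ Y : Type} [Group Γ] [MulAction Γ Y] {F : Y → Y → Prop}
    (hfree : ∀ γ : Γ, γ ≠ 1 → ∀ y : Y, γ • y ≠ y) (hF : Equivalence F)
    (hfin : ∀ x, {y | F x y}.Finite) (ξ : Γ → Y → ℝ) (t : Γ) (y : Y) (K : Finset Γ) :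
    ∑ γ ∈ K, ‖ξ (t * γ) y - ξ γ (t⁻¹ • y)‖ₑ ≤
      ∑ γ ∈ K, ‖ξ (t * γ) y - (J7_L F (t * γ) y).toReal‖ₑ +
        (Set.indicator {y : Y | ¬ F (t⁻¹ • y) y} (fun _ => (2 : ENNReal)) y +
          ∑ γ ∈ K, ‖ξ γ (t⁻¹ • y) - (J7_L F γ (t⁻¹ • y)).toReal‖ₑ) := by
  have h1 : ∀ γ ∈ K, ‖ξ (t * γ) y - ξ γ (t⁻¹ • y)‖ₑ ≤
      ‖ξ (t * γ) y - (J7_L F (t * γ) y).toReal‖ₑ +
        (‖(J7_L F (t * γ) y).toReal - (J7_L F γ (t⁻¹ • y)).toReal‖ₑ +
          ‖ξ γ (t⁻¹ • y) - (J7_L F γ (t⁻¹ • y)).toReal‖ₑ) := by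
    intro γ _
    have e : ξ (t * γ) y - ξ γ (t⁻¹ • y) = (ξ (t * γ) y - (J7_L F (t * γ) y).toReal) +
        (((J7_L F (t * γ) y).toReal - (J7_L F γ (t⁻¹ • y)).toReal) +
          ((J7_L F γ (t⁻¹ • y)).toReal - ξ γ (t⁻¹ • y))) := by ring
    rw [e]
    refine (enorm_add_le _ _).trans (add_le_add le_rfl ((enorm_add_le _ _).trans
      (add_le_add le_rfl (le_of_eq ?_))))
    exact enorm_sub_rev _ _
  refine (Finset.sum_le_sum h1).trans ?_
  rw [Finset.sum_add_distrib, Finset.sum_add_distrib]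
  gcongr
  exact J7_mid hfree hF hfin t y K

theorem pJ7 : S_app := by
  intro Γ _ _ Y _ _ _ _ _ _ _ _ hfree hhyp μ _ T η hη
  obtain ⟨F, hE, hm, hfin, hmono, hU⟩ := hhyp
  have hSm : ∀ n (t : Γ), MeasurableSet {y : Y | ¬ F n (t⁻¹ • y) y} :=
    fun n t => (J7_B_meas (hm n) t).compl
  have hS0 : ∀ t : Γ, Filter.Tendsto (fun n => 2 * μ {y : Y | ¬ F n (t⁻¹ • y) y}) Filter.atTop
      (nhds 0) := by
    intro t
    have hanti : Antitone (fun n => {y : Y | ¬ F n (t⁻¹ • y) y}) := by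
      refine antitone_nat_of_succ_le fun n y hy hc => hy (hmono n _ _ hc)
    have h1 := tendsto_measure_iInter_atTop (μ := μ)
      (fun n => (hSm n t).nullMeasurableSet) hanti ⟨0, measure_ne_top _ _⟩
    have h2 : (⋂ n, {y : Y | ¬ F n (t⁻¹ • y) y}) = ∅ := by
      ext y
      simp only [Set.mem_iInter, Set.mem_ofPred_eq, Set.mem_empty_iff_false, iff_false, not_forall,
        not_not]
      exact (hU (t⁻¹ • y) y).1 ⟨t, smul_inv_smul t y⟩
    rw [h2, measure_empty] at h1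
    have h3 := ENNReal.Tendsto.const_mul h1 (Or.inr (by norm_num : (2 : ENNReal) ≠ ⊤))
    simpa using h3
  have hS1 : Filter.Tendsto (fun n => ∑ t ∈ T, 2 * μ {y : Y | ¬ F n (t⁻¹ • y) y}) Filter.atTop
      (nhds 0) := by
    have := tendsto_finsetSum T (fun t _ => hS0 t)
    simpa using this
  have hη2 : (0 : ENNReal) < ENNReal.ofReal (η / 2) := ENNReal.ofReal_pos.mpr (by linarith)
  obtain ⟨n, hn⟩ := (hS1.eventually (ge_mem_nhds hη2)).exists
  have hLm : ∀ γ : Γ, Measurable (J7_L (F n) γ : Y → ENNReal) := fun γ => J7_L_meas (hm n) γ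
  have hs : ∀ y : Y, ∑' γ : Γ, J7_L (F n) γ y = 1 := J7_sum hfree (hE n) (hfin n)
  have hsm : ∀ t : Γ, Measurable (fun y : Y => t⁻¹ • y) := fun t =>
    (continuous_const_smul t⁻¹).measurable
  obtain ⟨δ, hδd⟩ : ∃ δ : ℝ, δ = η / (8 * ((T.card : ℝ) + 1)) := ⟨_, rfl⟩
  have hδ0 : 0 < δ := by rw [hδd]; positivity
  have hδ1 : ENNReal.ofReal δ ≠ 0 := (ENNReal.ofReal_pos.mpr hδ0).ne'
  obtain ⟨ν, hνd⟩ : ∃ ν : Measure Y, ν = μ + ∑ t ∈ T, μ.map (fun y => t⁻¹ • y) := ⟨_, rfl⟩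
  have : IsFiniteMeasure ν := by
    constructor
    rw [hνd, Measure.add_apply, Measure.finsetSum_apply]
    refine ENNReal.add_lt_top.mpr ⟨measure_lt_top _ _, ENNReal.sum_lt_top.mpr fun t _ => ?_⟩
    exact (Measure.map_apply (hsm t) MeasurableSet.univ) ▸ measure_lt_top _ _
  have hν : ∀ g : Y → ENNReal, ∫⁻ y, g y ∂ν =
      ∫⁻ y, g y ∂μ + ∑ t ∈ T, ∫⁻ y, g y ∂(μ.map (fun y => t⁻¹ • y)) := by
    intro g
    rw [hνd, lintegral_add_measure, lintegral_finsetSum_measure]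
  have hν1 : ∀ g : Y → ENNReal, ∫⁻ y, g y ∂μ ≤ ∫⁻ y, g y ∂ν := by
    intro g
    rw [hν]
    exact le_self_add
  have hν2 : ∀ t ∈ T, ∀ g : Y → ENNReal, Measurable g →
      ∫⁻ y, g (t⁻¹ • y) ∂μ ≤ ∫⁻ y, g y ∂ν := by
    intro t ht g hg
    rw [hν, ← lintegral_map hg (hsm t)]
    refine le_trans ?_ le_add_self
    exact Finset.single_le_sum (f := fun t => ∫⁻ y, g y ∂(μ.map (fun y => t⁻¹ • y)))
      (fun _ _ => zero_le) ht
  obtain ⟨K, ξ, hξ0, hξK, hξ⟩ := J7_tot ν (J7_L (F n)) hLm hs (ENNReal.ofReal δ) hδ1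
  have hDm : ∀ γ : Γ, Measurable (fun y => ‖ξ γ y - (J7_L (F n) γ y).toReal‖ₑ) := fun γ =>
    ((ξ γ).continuous.measurable.sub (hLm γ).ennreal_toReal).enorm
  refine ⟨K, ξ, hξ0, hξK, ?_, ?_⟩
  · -- the mass
    have hc : Continuous (fun y => ∑ γ ∈ K, ξ γ y) :=
      continuous_finsetSum K fun γ _ => (ξ γ).continuous
    have hi : Integrable (fun y => ∑ γ ∈ K, ξ γ y) μ :=
      hc.integrable_of_hasCompactSupport (HasCompactSupport.of_compactSpace _)
    have hnn : ∀ y, 0 ≤ ∑ γ ∈ K, ξ γ y := fun y => Finset.sum_nonneg fun γ _ => hξ0 γ y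
    have h1 := ofReal_integral_eq_lintegral_ofReal hi (Filter.Eventually.of_forall hnn)
    have h2 : (1 : ENNReal) ≤ ENNReal.ofReal (∫ y, ∑ γ ∈ K, ξ γ y ∂μ) +
        (ENNReal.ofReal δ + ENNReal.ofReal δ) := by
      have e1 : (1 : ENNReal) = ∑' γ : Γ, ∫⁻ y, J7_L (F n) γ y ∂μ := by
        rw [← lintegral_tsum (fun γ => (hLm γ).aemeasurable)]
        simp [hs]
      have e2 : ∀ γ : Γ, ∫⁻ y, J7_L (F n) γ y ∂μ ≤ ∫⁻ y, ENNReal.ofReal (ξ γ y) ∂μ +
          ∫⁻ y, ‖ξ γ y - (J7_L (F n) γ y).toReal‖ₑ ∂ν := by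
        intro γ
        refine le_trans ?_ (add_le_add le_rfl (hν1 _))
        rw [← lintegral_add_right _ (hDm γ)]
        refine lintegral_mono fun y => ?_
        have hle := J7_L_le hfree (hE n) (hfin n) γ y
        have hne : J7_L (F n) γ y ≠ ⊤ := (hle.trans_lt ENNReal.one_lt_top).ne
        rw [← ENNReal.ofReal_toReal hne, Real.enorm_eq_ofReal_abs,
          ← ENNReal.ofReal_add (hξ0 γ y) (abs_nonneg _)]
        refine ENNReal.ofReal_le_ofReal ?_
        rw [ENNReal.toReal_ofReal ENNReal.toReal_nonneg]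
        have := neg_abs_le (ξ γ y - (J7_L (F n) γ y).toReal)
        linarith
      rw [e1]
      refine (ENNReal.tsum_le_tsum e2).trans ?_
      rw [ENNReal.tsum_add]
      refine add_le_add ?_ hξ
      rw [h1, tsum_eq_sum (s := K) (fun γ hγ => by simp [hξK γ hγ])]
      rw [← lintegral_finsetSum K
        (fun γ _ => ((ξ γ).continuous.measurable).ennreal_ofReal)]
      refine le_of_eq (lintegral_congr fun y => ?_)
      rw [ENNReal.ofReal_sum_of_nonneg fun γ _ => hξ0 γ y]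
    have hint : 0 ≤ ∫ y, ∑ γ ∈ K, ξ γ y ∂μ := integral_nonneg hnn
    rw [← ENNReal.ofReal_add hδ0.le hδ0.le, ← ENNReal.ofReal_add hint (by linarith),
      ← ENNReal.ofReal_one] at h2
    have h3 := (ENNReal.ofReal_le_ofReal_iff (by linarith)).1 h2
    have h4 : δ ≤ η / 8 := by
      rw [hδd]
      exact div_le_div_of_nonneg_left hη.le (by norm_num)
        (by nlinarith [(Nat.cast_nonneg T.card : (0 : ℝ) ≤ T.card)])
    linarith
  · -- the almost invariance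
    intro K'
    have hc : Continuous (fun y => ∑ t ∈ T, ∑ γ ∈ K', |ξ (t * γ) y - ξ γ (t⁻¹ • y)|) :=
      continuous_finsetSum T fun t _ => continuous_finsetSum K' fun γ _ =>
        ((ξ (t * γ)).continuous.sub ((ξ γ).continuous.comp (continuous_const_smul t⁻¹))).abs
    have hi : Integrable (fun y => ∑ t ∈ T, ∑ γ ∈ K', |ξ (t * γ) y - ξ γ (t⁻¹ • y)|) μ :=
      hc.integrable_of_hasCompactSupport (HasCompactSupport.of_compactSpace _)
    have hnn : ∀ y, 0 ≤ ∑ t ∈ T, ∑ γ ∈ K', |ξ (t * γ) y - ξ γ (t⁻¹ • y)| := fun y =>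
      Finset.sum_nonneg fun t _ => Finset.sum_nonneg fun γ _ => abs_nonneg _
    have h1 := ofReal_integral_eq_lintegral_ofReal hi (Filter.Eventually.of_forall hnn)
    rw [← ENNReal.ofReal_le_ofReal_iff hη.le, h1]
    have e0 : ∀ y, ENNReal.ofReal (∑ t ∈ T, ∑ γ ∈ K', |ξ (t * γ) y - ξ γ (t⁻¹ • y)|) =
        ∑ t ∈ T, ∑ γ ∈ K', ‖ξ (t * γ) y - ξ γ (t⁻¹ • y)‖ₑ := by
      intro y
      rw [ENNReal.ofReal_sum_of_nonneg fun t _ => Finset.sum_nonneg fun γ _ => abs_nonneg _]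
      refine Finset.sum_congr rfl fun t _ => ?_
      rw [ENNReal.ofReal_sum_of_nonneg fun γ _ => abs_nonneg _]
      exact Finset.sum_congr rfl fun γ _ => (Real.enorm_eq_ofReal_abs _).symm
    simp only [e0]
    have hmt : ∀ (t γ : Γ), Measurable (fun y => ‖ξ (t * γ) y - ξ γ (t⁻¹ • y)‖ₑ) := fun t γ =>
      ((ξ (t * γ)).continuous.measurable.sub
        ((ξ γ).continuous.measurable.comp (hsm t))).enorm
    rw [lintegral_finsetSum T (fun t _ => Finset.measurable_sum K' fun γ _ => hmt t γ)]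
    have hmain : ∀ t ∈ T, ∫⁻ y, ∑ γ ∈ K', ‖ξ (t * γ) y - ξ γ (t⁻¹ • y)‖ₑ ∂μ ≤
        4 * ENNReal.ofReal δ + 2 * μ {y : Y | ¬ F n (t⁻¹ • y) y} := by
      intro t ht
      have hDm2 : Measurable (fun y => ∑ γ ∈ K',
          ‖ξ (t * γ) y - (J7_L (F n) (t * γ) y).toReal‖ₑ) :=
        Finset.measurable_sum K' fun γ _ => hDm (t * γ)
      have hIm : Measurable (Set.indicator {y : Y | ¬ F n (t⁻¹ • y) y}
          (fun _ => (2 : ENNReal))) := measurable_const.indicator (hSm n t)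
      have hDt : ∀ γ : Γ, Measurable
          (fun y => ‖ξ γ (t⁻¹ • y) - (J7_L (F n) γ (t⁻¹ • y)).toReal‖ₑ) :=
        fun γ => (hDm γ).comp (hsm t)
      refine (lintegral_mono fun y =>
        J7_tri hfree (hE n) (hfin n) (fun γ y => ξ γ y) t y K').trans ?_
      rw [lintegral_add_left hDm2, lintegral_add_left hIm,
        lintegral_finsetSum K' (fun γ _ => hDm (t * γ)),
        lintegral_finsetSum K' (fun γ _ => hDt γ),
        lintegral_indicator_const (hSm n t)]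
      have a1 : ∑ γ ∈ K', ∫⁻ y, ‖ξ (t * γ) y - (J7_L (F n) (t * γ) y).toReal‖ₑ ∂μ ≤
          ENNReal.ofReal δ + ENNReal.ofReal δ := by
        refine (Finset.sum_le_sum fun γ _ => hν1 _).trans ?_
        refine (ENNReal.sum_le_tsum K').trans ?_
        refine le_trans (le_of_eq ?_) hξ
        exact (Equiv.mulLeft t).tsum_eq
          (fun γ => ∫⁻ y, ‖ξ γ y - (J7_L (F n) γ y).toReal‖ₑ ∂ν)
      have a2 : ∑ γ ∈ K', ∫⁻ y, ‖ξ γ (t⁻¹ • y) - (J7_L (F n) γ (t⁻¹ • y)).toReal‖ₑ ∂μ ≤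
          ENNReal.ofReal δ + ENNReal.ofReal δ := by
        refine (Finset.sum_le_sum fun γ _ => hν2 t ht _ (hDm γ)).trans ?_
        exact (ENNReal.sum_le_tsum K').trans hξ
      calc _ ≤ (ENNReal.ofReal δ + ENNReal.ofReal δ) +
            (2 * μ {y : Y | ¬ F n (t⁻¹ • y) y} + (ENNReal.ofReal δ + ENNReal.ofReal δ)) :=
            add_le_add a1 (add_le_add le_rfl a2)
        _ = _ := by ring
    refine (Finset.sum_le_sum hmain).trans ?_
    rw [Finset.sum_add_distrib, Finset.sum_const, nsmul_eq_mul]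
    have b1 : (T.card : ENNReal) * (4 * ENNReal.ofReal δ) ≤ ENNReal.ofReal (η / 2) := by
      have : (T.card : ENNReal) * (4 * ENNReal.ofReal δ) =
          ENNReal.ofReal ((T.card : ℝ) * (4 * δ)) := by
        rw [ENNReal.ofReal_mul (Nat.cast_nonneg _), ENNReal.ofReal_mul (by norm_num),
          ENNReal.ofReal_natCast]
        norm_num
      rw [this]
      refine ENNReal.ofReal_le_ofReal ?_
      have hT : (0 : ℝ) ≤ T.card := Nat.cast_nonneg _
      have : δ * (8 * ((T.card : ℝ) + 1)) = η := by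
        rw [hδd]
        field_simp
      nlinarith
    calc _ ≤ ENNReal.ofReal (η / 2) + ENNReal.ofReal (η / 2) := add_le_add b1 hn
      _ = ENNReal.ofReal η := by
        rw [← ENNReal.ofReal_add (by linarith) (by linarith)]
        congr 1
        ring

end Pool.Agent.Helper784HF
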