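import Pool.Agent.Helper784HF.Defs
set_option autoImplicit false
open Finset MeasureTheory TopologicalSpace
open scoped Classical
namespace Pool.Agent.Helper784HF

theorem J8_unif {Y : Type} [TopologicalSpace Y] [CompactSpace Y] [MeasurableSpace Y]
    [BorelSpace Y] (V : Type) [Fintype V] [Nonempty V] (p : V → Y) :
    ∃ ν : ProbabilityMeasure Y, ∀ f : C(Y, ℝ),
      ∫ y, f y ∂(ν : Measure Y) = (∑ u, f (p u)) / Fintype.card V := by
  have hc : (Fintype.card V : ENNReal) ≠ 0 := by
    exact_mod_cast Fintype.card_ne_zero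
  have hct : (Fintype.card V : ENNReal) ≠ ⊤ := ENNReal.natCast_ne_top _
  let m : Measure Y := (Fintype.card V : ENNReal)⁻¹ • ∑ u : V, Measure.dirac (p u)
  have hm : IsProbabilityMeasure m := by
    constructor
    simp only [m, Measure.smul_apply, Measure.finsetSum_apply, measure_univ, sum_const,
      card_univ, nsmul_eq_mul, mul_one, smul_eq_mul]
    exact ENNReal.inv_mul_cancel hc hct
  refine ⟨⟨m, hm⟩, fun f => ?_⟩
  show ∫ y, f y ∂m = _
  have hf : StronglyMeasurable (fun y => f y) := by
    refine f.continuous.stronglyMeasurable_of_hasCompactSupport ?_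
    exact HasCompactSupport.of_compactSpace _
  rw [integral_smul_measure, integral_finsetSum_measure]
  · have : ∀ u ∈ (Finset.univ : Finset V), ∫ y, f y ∂(Measure.dirac (p u)) = f (p u) :=
      fun u _ => integral_dirac' _ _ hf
    rw [Finset.sum_congr rfl this, smul_eq_mul, ENNReal.toReal_inv, ENNReal.toReal_natCast,
      div_eq_inv_mul]
  · intro u _
    exact f.continuous.integrable_of_hasCompactSupport (HasCompactSupport.of_compactSpace _)

theorem pJ8 : S_lim := by
  intro Y _ _ _ _ _ _ V _ _ p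
  choose ν hν using fun k => J8_unif (V k) (p k)
  obtain ⟨μ, hμ⟩ := exists_clusterPt_of_compactSpace (Filter.map ν Filter.atTop)
  refine ⟨(μ : Measure Y), inferInstance, ?_⟩
  intro m f ε hε N
  have hnhds : {ρ : ProbabilityMeasure Y | ∀ i, |∫ y, f i y ∂(ρ : Measure Y) -
      ∫ y, f i y ∂(μ : Measure Y)| < ε} ∈ nhds μ := by
    rw [Set.setOf_forall]
    refine (Filter.iInter_mem).2 fun i => ?_
    have hcont : Continuous fun ρ : ProbabilityMeasure Y => ∫ y, f i y ∂(ρ : Measure Y) :=
      ProbabilityMeasure.continuous_integral_continuousMap (f i)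
    have h2 : Continuous fun ρ : ProbabilityMeasure Y =>
        |∫ y, f i y ∂(ρ : Measure Y) - ∫ y, f i y ∂(μ : Measure Y)| :=
      (hcont.sub continuous_const).abs
    refine (isOpen_lt h2 continuous_const).mem_nhds ?_
    simpa using hε
  have hfreq : ∃ᶠ k in Filter.atTop, ν k ∈ {ρ : ProbabilityMeasure Y | ∀ i,
      |∫ y, f i y ∂(ρ : Measure Y) - ∫ y, f i y ∂(μ : Measure Y)| < ε} := by
    have := mapClusterPt_iff_frequently.1 hμ _ hnhds
    exact this
  obtain ⟨k, hk, hk2⟩ := (Filter.frequently_atTop.1 hfreq) N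
  refine ⟨k, hk, fun i => ?_⟩
  have h3 := hk2 i
  rw [hν k (f i)] at h3
  exact h3

end Pool.Agent.Helper784HF
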