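import Mathlib
import Pool.Agent.Helper784HF.Defs

/-!
No free hyperfinite continuous action on a compact space for groups containing expanders.
-/

set_option autoImplicit false

open Finset MeasureTheory TopologicalSpace
open scoped Classical

namespace Pool.Agent.Helper784HF

/-- the finite part -/
theorem J9_fin (h6 : S_coarea) {Γ : Type} [Group Γ] {Y : Type} [TopologicalSpace Y] [MulAction Γ Y]
    {T : Finset Γ} {D : ℕ} {ε : ℝ} (hε : 0 < ε) {V : Type} [Fintype V] [Nonempty V]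
    (Gr : SimpleGraph V) (hG : Helper784WE.IsExp Gr D ε) (g : V → Γ)
    (hg : ∀ u v, Gr.Adj u v → (g u)⁻¹ * g v ∈ T) (K : Finset Γ) (ξ : Γ → C(Y, ℝ))
    (h0 : ∀ γ y, 0 ≤ ξ γ y) (hK : ∀ γ, γ ∉ K → ξ γ = 0) (y0 : Y) (δ : ℝ)
    (hfib : ∀ x, ((univ.filter (fun v => g v = x)).card : ℝ) ≤ δ * Fintype.card V)
    (hδ : 2 * (K.card : ℝ) * δ ≤ 1) :
    ε * ∑ u, ∑ γ ∈ K, ξ γ ((g u)⁻¹ • y0) ≤
      D * ∑ u, ∑ t ∈ T, ∑ γ ∈ K ∪ (T.biUnion (fun t => K.image (fun k => t⁻¹ * k))),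
        |ξ (t * γ) ((g u)⁻¹ • y0) - ξ γ (t⁻¹ • ((g u)⁻¹ • y0))| := by
  set p : V → Y := fun u => (g u)⁻¹ • y0 with hp
  set K' := K ∪ (T.biUnion (fun t => K.image (fun k => t⁻¹ * k))) with hK'
  set H : Finset Γ := univ.biUnion (fun u : V => K.image (fun k => g u * k)) with hH
  set f : Γ → V → ℝ := fun h u => ξ ((g u)⁻¹ * h) (p u) with hf
  set A := univ.filter (fun q : V × V => Gr.Adj q.1 q.2) with hA
  -- sum over h of f
  have e1 : ∀ u, ∑ h ∈ H, f h u = ∑ γ ∈ K, ξ γ (p u) := by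
    intro u
    have e2 : ∑ h ∈ H, f h u = ∑ h ∈ K.image (fun k => g u * k), f h u := by
      symm
      apply sum_subset
      · intro x hx
        rw [hH, mem_biUnion]
        exact ⟨u, mem_univ _, hx⟩
      · intro x _ hx
        have : (g u)⁻¹ * x ∉ K := by
          intro hc
          apply hx
          rw [mem_image]
          exact ⟨_, hc, by group⟩
        simp only [hf, hK _ this, ContinuousMap.zero_apply]
    rw [e2, sum_image (fun a _ b _ hab => mul_left_cancel hab)]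
    apply sum_congr rfl
    intro γ _
    simp only [hf, inv_mul_cancel_left]
  -- the coarea inequality for each h
  have e3 : ∀ h, ε * ∑ u, f h u ≤ ∑ q ∈ A, |f h q.1 - f h q.2| := by
    intro h
    apply h6 V Gr D ε hε hG (f h) (fun v => h0 _ _)
    have e4 : (univ.filter (fun v => f h v ≠ 0)) ⊆
        K.biUnion (fun k => univ.filter (fun v => g v = h * k⁻¹)) := by
      intro v hv
      rw [mem_filter] at hv
      rw [mem_biUnion]
      have e5 : (g v)⁻¹ * h ∈ K := by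
        by_contra hc
        apply hv.2
        simp only [hf, hK _ hc, ContinuousMap.zero_apply]
      refine ⟨_, e5, ?_⟩
      rw [mem_filter]
      exact ⟨mem_univ _, by group⟩
    have e6 : ((univ.filter (fun v => f h v ≠ 0)).card : ℝ) ≤ K.card * (δ * Fintype.card V) := by
      have e7 : (univ.filter (fun v => f h v ≠ 0)).card ≤
          ∑ k ∈ K, (univ.filter (fun v => g v = h * k⁻¹)).card :=
        (card_le_card e4).trans card_biUnion_le
      calc ((univ.filter (fun v => f h v ≠ 0)).card : ℝ)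
          ≤ ∑ k ∈ K, ((univ.filter (fun v => g v = h * k⁻¹)).card : ℝ) := by exact_mod_cast e7
        _ ≤ ∑ k ∈ K, (δ * Fintype.card V) := sum_le_sum (fun k _ => hfib _)
        _ = _ := by rw [sum_const, nsmul_eq_mul]
    have e8 : (0 : ℝ) ≤ Fintype.card V := Nat.cast_nonneg _
    have e9 : (2 * ((univ.filter (fun v => f h v ≠ 0)).card : ℝ)) ≤ Fintype.card V := by
      nlinarith
    exact_mod_cast e9
  -- one edge
  have e10 : ∀ q ∈ A, ∑ h ∈ H, |f h q.1 - f h q.2| ≤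
      ∑ t ∈ T, ∑ γ ∈ K', |ξ (t * γ) (p q.1) - ξ γ (t⁻¹ • (p q.1))| := by
    intro q hq
    rw [hA, mem_filter] at hq
    set t := (g q.1)⁻¹ * g q.2 with ht
    have htT : t ∈ T := hg _ _ hq.2
    refine le_trans ?_ (single_le_sum (f := fun t => ∑ γ ∈ K',
      |ξ (t * γ) (p q.1) - ξ γ (t⁻¹ • (p q.1))|) (fun i _ => sum_nonneg
        (fun _ _ => abs_nonneg _)) htT)
    have e11 : ∀ h, |f h q.1 - f h q.2| = (fun γ => |ξ (t * γ) (p q.1) - ξ γ (t⁻¹ • (p q.1))|)
        ((g q.2)⁻¹ * h) := by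
      intro h
      have e12 : t * ((g q.2)⁻¹ * h) = (g q.1)⁻¹ * h := by rw [ht]; group
      have e13 : t⁻¹ • (p q.1) = p q.2 := by
        simp only [hp]
        rw [smul_smul, ht]
        congr 1
        group
      simp only [hf, e12, e13]
    rw [sum_congr rfl (fun h _ => e11 h)]
    rw [← sum_image (s := H) (g := fun h => (g q.2)⁻¹ * h)
      (f := fun γ => |ξ (t * γ) (p q.1) - ξ γ (t⁻¹ • (p q.1))|)
      (fun a _ b _ hab => mul_left_cancel hab)]
    have e14 : ∀ γ, γ ∉ K' → |ξ (t * γ) (p q.1) - ξ γ (t⁻¹ • (p q.1))| = 0 := by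
      intro γ hγ
      rw [hK', mem_union, not_or] at hγ
      have e15 : t * γ ∉ K := by
        intro hc
        apply hγ.2
        rw [mem_biUnion]
        refine ⟨t, htT, ?_⟩
        rw [mem_image]
        exact ⟨_, hc, by group⟩
      rw [hK _ hγ.1, hK _ e15]
      simp
    rw [← sum_filter_add_sum_filter_not _ (fun γ => γ ∈ K')]
    have e16 : ∑ x ∈ (H.image (fun h => (g q.2)⁻¹ * h)).filter (fun γ => ¬ γ ∈ K'),
        |ξ (t * x) (p q.1) - ξ x (t⁻¹ • (p q.1))| = 0 := by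
      apply sum_eq_zero
      intro γ hγ
      rw [mem_filter] at hγ
      exact e14 γ hγ.2
    rw [e16, add_zero]
    apply sum_le_sum_of_subset_of_nonneg
    · intro γ hγ
      rw [mem_filter] at hγ
      exact hγ.2
    · intro γ _ _
      exact abs_nonneg _
  -- total
  have e17 : ∑ h ∈ H, ε * ∑ u, f h u = ε * ∑ u, ∑ γ ∈ K, ξ γ (p u) := by
    rw [← mul_sum, sum_comm]
    congr 1
    exact sum_congr rfl (fun u _ => e1 u)
  rw [← e17]
  calc ∑ h ∈ H, ε * ∑ u, f h u ≤ ∑ h ∈ H, ∑ q ∈ A, |f h q.1 - f h q.2| :=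
        sum_le_sum (fun h _ => e3 h)
    _ = ∑ q ∈ A, ∑ h ∈ H, |f h q.1 - f h q.2| := sum_comm
    _ ≤ ∑ q ∈ A, ∑ t ∈ T, ∑ γ ∈ K', |ξ (t * γ) (p q.1) - ξ γ (t⁻¹ • (p q.1))| :=
        sum_le_sum e10
    _ = ∑ u, ∑ v ∈ univ.filter (fun v => Gr.Adj u v),
          ∑ t ∈ T, ∑ γ ∈ K', |ξ (t * γ) (p u) - ξ γ (t⁻¹ • (p u))| := by
        rw [hA, sum_filter, ← univ_product_univ, sum_product]
        apply sum_congr rfl
        intro u _
        rw [sum_filter]
    _ ≤ ∑ u, D * ∑ t ∈ T, ∑ γ ∈ K', |ξ (t * γ) (p u) - ξ γ (t⁻¹ • (p u))| := by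
        apply sum_le_sum
        intro u _
        rw [sum_const, nsmul_eq_mul]
        apply mul_le_mul_of_nonneg_right
        · exact_mod_cast hG.deg u
        · exact sum_nonneg (fun _ _ => sum_nonneg (fun _ _ => abs_nonneg _))
    _ = _ := by rw [mul_sum]

theorem pJ9 (h6 : S_coarea) (h7 : S_app) (h8 : S_lim) : S_dyn := by
  intro Γ _ _ hnc Y _ _ _ _ _ _ _ hfree hhyp
  rw [Helper784WE.Conc] at hnc
  push Not at hnc
  obtain ⟨T, D, ε, hε, hV⟩ := hnc
  choose V hVf hVn Gr hG g hg hfib using fun k : ℕ => hV (1 / ((k : ℝ) + 1)) (by positivity)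
  let _ : MeasurableSpace Y := borel Y
  have _ : BorelSpace Y := ⟨rfl⟩
  obtain ⟨y0⟩ := ‹Nonempty Y›
  obtain ⟨μ, hμ, hlim⟩ := h8 Y V (fun k u => (g k u)⁻¹ • y0)
  set η : ℝ := min (1 / 4) (ε / (8 * (D + 1))) with hη
  have hD : (0 : ℝ) ≤ D := Nat.cast_nonneg _
  have hη0 : 0 < η := by
    rw [hη]
    exact lt_min (by norm_num) (by positivity)
  have hη1 : η ≤ 1 / 4 := min_le_left _ _
  have hη2 : η * (8 * (D + 1)) ≤ ε := by
    rw [← le_div_iff₀ (by positivity)]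
    exact min_le_right _ _
  obtain ⟨K, ξ, h0, hK, hm, hΨ⟩ := h7 Γ Y hfree hhyp μ T η hη0
  set K' := K ∪ (T.biUnion (fun t => K.image (fun k => t⁻¹ * k))) with hK'
  set m : C(Y, ℝ) := ⟨fun y => ∑ γ ∈ K, ξ γ y,
    continuous_finsetSum _ (fun γ _ => (ξ γ).continuous)⟩ with hmdef
  set Ψ : C(Y, ℝ) := ⟨fun y => ∑ t ∈ T, ∑ γ ∈ K', |ξ (t * γ) y - ξ γ (t⁻¹ • y)|,
    continuous_finsetSum _ (fun t _ => continuous_finsetSum _ (fun γ _ =>
      (((ξ (t * γ)).continuous).sub ((ξ γ).continuous.comp (continuous_const_smul t⁻¹))).abs))⟩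
    with hΨdef
  obtain ⟨k, hk, hk2⟩ := hlim 2 ![m, Ψ] η hη0 (2 * (K.card + 1))
  have a1 := hk2 0
  have a2 := hk2 1
  simp only [Matrix.cons_val_zero, Matrix.cons_val_one] at a1 a2
  have hn : (0 : ℝ) < Fintype.card (V k) := by exact_mod_cast Fintype.card_pos
  have b := J9_fin h6 hε (Gr k) (hG k) (g k) (hg k) K ξ h0 hK y0 (1 / ((k : ℝ) + 1))
    (fun x => (hfib k x).le) (by
      rw [mul_one_div, div_le_one (by positivity)]
      have : ((2 * (K.card + 1) : ℕ) : ℝ) ≤ (k : ℝ) := by exact_mod_cast hk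
      push_cast at this
      linarith)
  have c1 : ∫ y, m y ∂μ = ∫ y, ∑ γ ∈ K, ξ γ y ∂μ := rfl
  have c2 : ∫ y, Ψ y ∂μ = ∫ y, ∑ t ∈ T, ∑ γ ∈ K', |ξ (t * γ) y - ξ γ (t⁻¹ • y)| ∂μ := rfl
  have d1 := hΨ K'
  rw [← c2] at d1
  rw [← c1] at hm
  have b' : ε * ∑ u, m ((g k u)⁻¹ • y0) ≤ D * ∑ u, Ψ ((g k u)⁻¹ • y0) := b
  rw [abs_lt] at a1 a2
  set M := ∑ u, m ((g k u)⁻¹ • y0) with hM
  set P := ∑ u, Ψ ((g k u)⁻¹ • y0) with hP
  have f1 : (1 - 2 * η) < M / Fintype.card (V k) := by linarith [a1.1]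
  have f2 : P / Fintype.card (V k) < 2 * η := by linarith [a2.2]
  have f3 : ε * (M / Fintype.card (V k)) ≤ D * (P / Fintype.card (V k)) := by
    rw [← mul_div_assoc, ← mul_div_assoc]
    exact div_le_div_of_nonneg_right b' hn.le
  nlinarith

end Pool.Agent.Helper784HF
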